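import Pool.Agent.Z85.LMD.Red

/-!
# MP_6d1543_lc: the local metric dimension of planar graphs is NP-hard to compute

The definitions are in `Pool.Agent.Z85.LMD.Defs` (local metric generators, local metric dimension,
planar graphs), `Pool.Agent.H671R2.ZDefs` (adjacency matrices), `Pool.Agent.NPC.Defs` (bit strings,
`NP`, polynomial time) and `Pool.Agent.H673R2.HardOn` (hardness on a class of instances).

The reduction is from 3SAT.  A grid with two rows for each variable and one column for each clause
is drawn in the plane.  In every face there is a hub, a vertex forced to be resolved from its own
pendant triangle, which is adjacent to certain vertices of the wires around the face.  So all edges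
are resolved by forced landmarks, except for some critical edges both of whose ends are adjacent to
the same hubs, and these are resolved only by landmarks nearby.  Some critical edges force exactly
one landmark in each of a system of disjoint sets; the others transmit the choices along the wires,
straight through the crossings of the wires.
-/

namespace Pool.Agent.Results.MP_6d1543_lc.PlanarNPHard

open Pool.Agent.NPC Pool.Agent.NPC.R671 Pool.Agent.H673R2 Pool.Agent.Z85.LMD

/-- The first component of the pair is the adjacency matrix of a planar graph. -/
def PlanarInput (p : List (List Bool) × ℕ) : Prop :=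
  ∃ (n : ℕ) (G : SimpleGraph (Fin n)), adjMatrix G = p.1 ∧ IsPlanar G

/-- Local metric dimension: given the adjacency matrix of a graph `G` and a number `k`, is the local
metric dimension of `G` at most `k`? -/
def LocalMetricDimension (p : List (List Bool) × ℕ) : Prop :=
  ∃ (n : ℕ) (G : SimpleGraph (Fin n)), adjMatrix G = p.1 ∧ localDim G ≤ p.2

/-- Local metric dimension on planar graphs. -/
def PlanarLocalMetricDimension (p : List (List Bool) × ℕ) : Prop :=
  ∃ (n : ℕ) (G : SimpleGraph (Fin n)), adjMatrix G = p.1 ∧ IsPlanar G ∧ localDim G ≤ p.2

/-- The decision problem local metric dimension, restricted to planar graphs, is `NP`-hard with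
respect to polynomial-time many-one reductions: every language in `NP` has a polynomial-time
reduction to it whose values are all planar graphs (with numbers `k`).  The problem in which the
planarity of the graph is a part of the question is `NP`-hard, too. -/
theorem result :
    NPHardOn PlanarInput LocalMetricDimension ∧ NPHardP PlanarLocalMetricDimension := by
  have h1 : NPHardOn PlanarInput LocalMetricDimension := by
    refine npHardOn_of hardPr_SAT3b poly_inst ?_ ?_
    · rintro φ -
      exact ⟨_, redG φ, rfl, redG_planar φ⟩
    · rintro φ ⟨-, hb, hne⟩
      rw [redG_iff hne hb]
      constructor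
      · intro h
        exact ⟨_, redG φ, rfl, h⟩
      · rintro ⟨n, G, hG, h⟩
        have h2 : n = (vs φ).length := by
          have h3 := congrArg List.length hG
          unfold inst adjMatrix at h3
          simpa using h3
        subst h2
        rwa [← adjMatrix_inj (G := G) (H := redG φ) hG]
  refine ⟨h1, ?_⟩
  have h2 : NPHardOn PlanarInput PlanarLocalMetricDimension := by
    intro L hL
    obtain ⟨f, hf, hp, hi⟩ := h1 L hL
    refine ⟨f, hf, hp, fun x => ?_⟩
    rw [hi x]
    constructor
    · rintro ⟨n, G, hG, h⟩
      obtain ⟨m, H, hH, h3⟩ := hp x
      refine ⟨n, G, hG, ?_, h⟩
      have h4 : n = m := by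
        have h5 := congrArg List.length (hG.trans hH.symm)
        unfold adjMatrix at h5
        simpa using h5
      subst h4
      rwa [adjMatrix_inj (hG.trans hH.symm)]
    · rintro ⟨n, G, hG, -, h⟩
      exact ⟨n, G, hG, h⟩
  exact h2.toNPHardP

end Pool.Agent.Results.MP_6d1543_lc.PlanarNPHard
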